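import Mathlib

/-!
Basic notions for range-2 cellular automata (one-dimensional, one-sided neighbourhood of size 2),
used by the hand-ins for MP_b60c25_lc.
-/

namespace Pool.Agent.Lib.MP_b60c25_lc

/-- The global map on configurations of the range-2 cellular automaton with local rule `f`. -/
def globalMap {S : Type} (f : S → S → S) (c : ℤ → S) : ℤ → S :=
  fun p => f (c p) (c (p + 1))

/-- The action of the automaton on finite words:
`s₁ s₂ ⋯ sₘ ↦ f(s₁,s₂) f(s₂,s₃) ⋯ f(sₘ₋₁,sₘ)`. -/
def wordMap {S : Type} (f : S → S → S) (w : List S) : List S :=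
  List.zipWith f w w.tail

/-- `HasDiamond f l`: the automaton with local rule `f` has a diamond of length `l ≥ 1`, i.e. two
words `p c₁ ⋯ cₗ s` and `p c'₁ ⋯ c'ₗ s` with equal images and `(c₁,…,cₗ) ≠ (c'₁,…,c'ₗ)`. -/
def HasDiamond {S : Type} (f : S → S → S) (l : ℕ) : Prop :=
  1 ≤ l ∧ ∃ (p s : S) (c c' : List S), c.length = l ∧ c'.length = l ∧ c ≠ c' ∧
    wordMap f (p :: (c ++ [s])) = wordMap f (p :: (c' ++ [s]))

/-- `δ(G)`: the least length of a diamond. -/
noncomputable def delta {S : Type} (f : S → S → S) : ℕ := sInf {l | HasDiamond f l}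

/-- `D(n)`: the maximum of `δ(G)` over the non-surjective range-2 automata with `n` states
(there are finitely many automata with state set `Fin n`, so the supremum is a maximum as soon as
there is a non-surjective automaton with `n` states). -/
noncomputable def D (n : ℕ) : ℕ :=
  sSup {k | ∃ f : Fin n → Fin n → Fin n, ¬ Function.Surjective (globalMap f) ∧ delta f = k}

/-! ### Words -/

theorem wordMap_cons_cons {S : Type} (f : S → S → S) (a b : S) (w : List S) :
    wordMap f (a :: b :: w) = f a b :: wordMap f (b :: w) := rfl

theorem wordMap_concat {S : Type} (f : S → S → S) (w : List S) (a c : S) :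
    wordMap f (w ++ [a] ++ [c]) = wordMap f (w ++ [a]) ++ [f a c] := by
  induction w with
  | nil => rfl
  | cons x t ih =>
    cases t with
    | nil => rfl
    | cons y t' =>
      simp only [List.cons_append, wordMap_cons_cons] at ih ⊢
      rw [ih]

/-! ### The pair graph -/

/-- `Rch f i a b`: some two paths of length `i` from a common state, carrying the same labels,
end in `a` and `b`. -/
def Rch {S : Type} (f : S → S → S) : ℕ → S → S → Prop
  | 0, c, d => c = d
  | i + 1, c, d => ∃ a b, Rch f i a b ∧ f a c = f b d

theorem Rch.refl {S : Type} (f : S → S → S) (i : ℕ) (c : S) : Rch f i c c := by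
  cases i with
  | zero => rfl
  | succ i =>
    have h : ∀ i, ∀ c : S, Rch f i c c := by
      intro i
      induction i with
      | zero => intro c; rfl
      | succ i ih => intro c; exact ⟨c, c, ih c, rfl⟩
    exact h (i + 1) c

theorem Rch.succ {S : Type} {f : S → S → S} {i : ℕ} {a b : S} (h : Rch f i a b) :
    Rch f (i + 1) a b := by
  induction i generalizing a b with
  | zero => cases h; exact Rch.refl f 1 a
  | succ i ih =>
    obtain ⟨a', b', h1, h2⟩ := h
    exact ⟨a', b', ih h1, h2⟩

theorem Rch.mono {S : Type} {f : S → S → S} {i j : ℕ} (hij : i ≤ j) {a b : S}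
    (h : Rch f i a b) : Rch f j a b := by
  induction hij with
  | refl => exact h
  | step _ ih => exact ih.succ

theorem Rch.symm {S : Type} {f : S → S → S} {i : ℕ} {a b : S} (h : Rch f i a b) :
    Rch f i b a := by
  induction i generalizing a b with
  | zero => exact Eq.symm h
  | succ i ih =>
    obtain ⟨a', b', h1, h2⟩ := h
    exact ⟨b', a', ih h1, h2.symm⟩

/-- Reachable pairs give words. -/
theorem Rch.words {S : Type} {f : S → S → S} {i : ℕ} {a b : S} (h : Rch f i a b) :
    ∃ u u' : List S, u.length = i ∧ u'.length = i ∧
      (u ++ [a]).head? = (u' ++ [b]).head? ∧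
      wordMap f (u ++ [a]) = wordMap f (u' ++ [b]) := by
  induction i generalizing a b with
  | zero => cases h; exact ⟨[], [], rfl, rfl, rfl, rfl⟩
  | succ i ih =>
    obtain ⟨a', b', h1, h2⟩ := h
    obtain ⟨u, u', hu, hu', hh, hw⟩ := ih h1
    refine ⟨u ++ [a'], u' ++ [b'], by simp [hu], by simp [hu'], ?_, ?_⟩
    · cases u with
      | nil => cases u' with
        | nil => simpa using hh
        | cons x t => simp only [List.length_nil, List.length_cons] at hu hu'; omega
      | cons x t => cases u' with
        | nil => simp only [List.length_nil, List.length_cons] at hu hu'; omega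
        | cons x' t' => simpa using hh
    · rw [wordMap_concat, wordMap_concat, hw, h2]

/-- A reachable off-diagonal pair with a column collision gives a diamond. -/
theorem Rch.hasDiamond {S : Type} {f : S → S → S} {i : ℕ} {a b s : S} (h : Rch f i a b)
    (hab : a ≠ b) (hs : f a s = f b s) : HasDiamond f i := by
  obtain ⟨u, u', hu, hu', hh, hw⟩ := h.words
  cases u with
  | nil =>
    cases u' with
    | nil => simp at hh; exact absurd hh hab
    | cons x t => simp only [List.length_nil, List.length_cons] at hu hu'; omega
  | cons x t =>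
    cases u' with
    | nil => simp only [List.length_nil, List.length_cons] at hu hu'; omega
    | cons x' t' =>
      simp only [List.cons_append, List.head?_cons, Option.some.injEq] at hh
      subst hh
      refine ⟨by simp only [List.length_cons] at hu; omega, x, s, t ++ [a], t' ++ [b], ?_, ?_, ?_, ?_⟩
      · simp only [List.length_cons] at hu; simp [hu]
      · simp only [List.length_cons] at hu'; simp [hu']
      · intro he
        apply hab
        have := congrArg List.getLast? he
        simpa using this
      · have e1 := wordMap_concat f (x :: t) a s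
        have e2 := wordMap_concat f (x :: t') b s
        simp only [List.cons_append] at e1 e2 hw
        rw [e1, e2, hw, hs]

/-- From a pair of words with equal images, different and with the same last letter, one reads off
a reachable off-diagonal pair with a column collision. -/
theorem exists_of_words {S : Type} {f : S → S → S} (s : S) :
    ∀ (c c' : List S) (i : ℕ) (a b : S), c.length = c'.length → Rch f i a b → (a ≠ b ∨ c ≠ c') →
      wordMap f (a :: (c ++ [s])) = wordMap f (b :: (c' ++ [s])) →
      ∃ j ≤ i + c.length, ∃ a' b' s', a' ≠ b' ∧ Rch f j a' b' ∧ f a' s' = f b' s' := by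
  intro c
  induction c with
  | nil =>
    intro c' i a b hl h hne hw
    cases c' with
    | cons x t => simp at hl
    | nil =>
      rcases hne with hne | hne
      · refine ⟨i, by simp, a, b, s, hne, h, ?_⟩
        simpa [wordMap] using hw
      · exact absurd rfl hne
  | cons x t ih =>
    intro c' i a b hl h hne hw
    cases c' with
    | nil => simp at hl
    | cons x' t' =>
      simp only [List.cons_append, wordMap_cons_cons, List.cons.injEq] at hw
      obtain ⟨hw1, hw2⟩ := hw
      by_cases hc : x ≠ x' ∨ t ≠ t'
      · obtain ⟨j, hj, rest⟩ := ih t' (i + 1) x x' (by simpa using hl) ⟨a, b, h, hw1⟩ hc hw2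
        refine ⟨j, ?_, rest⟩
        simp only [List.length_cons]
        omega
      · push Not at hc
        obtain ⟨rfl, rfl⟩ := hc
        have hab : a ≠ b := by
          rcases hne with hne | hne
          · exact hne
          · exact absurd rfl hne
        exact ⟨i, by simp, a, b, x, hab, h, hw1⟩

theorem HasDiamond.exists_rch {S : Type} {f : S → S → S} {l : ℕ} (h : HasDiamond f l) :
    ∃ j ≤ l, ∃ a b s, a ≠ b ∧ Rch f j a b ∧ f a s = f b s := by
  obtain ⟨_, p, s, c, c', hc, hc', hne, hw⟩ := h
  obtain ⟨j, hj, rest⟩ := exists_of_words s c c' 0 p p (by rw [hc, hc']) rfl (Or.inr hne) hw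
  exact ⟨j, by omega, rest⟩

/-- A potential function argument: lower bound for the length of any diamond. -/
theorem le_of_potential {S : Type} {f : S → S → S} (L : ℕ) (h : S → S → ℕ)
    (h1 : ∀ p c d, c ≠ d → f p c = f p d → h c d ≤ 1)
    (h2 : ∀ a b c d, a ≠ b → c ≠ d → f a c = f b d → h c d ≤ h a b + 1)
    (h3 : ∀ a b s, a ≠ b → f a s = f b s → L ≤ h a b) {l : ℕ} (hd : HasDiamond f l) : L ≤ l := by
  obtain ⟨j, hj, a, b, s, hab, hr, hs⟩ := hd.exists_rch
  have key : ∀ i, ∀ a b, a ≠ b → Rch f i a b → h a b ≤ i := by
    intro i
    induction i with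
    | zero => intro a b hab hr; exact absurd hr hab
    | succ i ih =>
      intro c d hcd hr
      obtain ⟨a, b, hr1, hr2⟩ := hr
      by_cases hab : a = b
      · subst hab
        have := h1 a c d hcd hr2
        omega
      · have := h2 a b c d hab hcd hr2
        have := ih a b hab hr1
        omega
  have := key j a b hab hr
  have := h3 a b s hab hs
  omega

/-- The set defining `D n` is bounded above. -/
theorem bddAbove_D (n : ℕ) :
    BddAbove {k | ∃ f : Fin n → Fin n → Fin n,
      ¬ Function.Surjective (globalMap f) ∧ delta f = k} := by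
  apply Set.Finite.bddAbove
  apply Set.Finite.subset (Set.finite_range (fun f : Fin n → Fin n → Fin n => delta f))
  rintro k ⟨f, _, rfl⟩
  exact ⟨f, rfl⟩

theorem le_D {n : ℕ} (f : Fin n → Fin n → Fin n) (hf : ¬ Function.Surjective (globalMap f)) :
    delta f ≤ D n :=
  le_csSup (bddAbove_D n) ⟨f, hf, rfl⟩

end Pool.Agent.Lib.MP_b60c25_lc
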