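import Pool.Agent.Lib.MP_b60c25_lc.Basic

/-!
Every 4-state range-2 automaton that has a diamond has one of length at most 5.
-/

namespace Pool.Agent.Lib.MP_b60c25_lc

open Finset

/-- States reached from `a` or `b` with label `x`. -/
def TT (f : Fin 4 → Fin 4 → Fin 4) (a b x : Fin 4) : Finset (Fin 4) :=
  univ.filter (fun s => f a s = x ∨ f b s = x)

theorem mem_TT {f : Fin 4 → Fin 4 → Fin 4} {a b x s : Fin 4} :
    s ∈ TT f a b x ↔ f a s = x ∨ f b s = x := by simp [TT]

theorem sum_card_TT (f : Fin 4 → Fin 4 → Fin 4) (a b : Fin 4) (h : ∀ s, f a s ≠ f b s) :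
    ∑ x, (TT f a b x).card = 8 := by
  have h1 : ∀ x, (TT f a b x).card = ∑ s, if (f a s = x ∨ f b s = x) then 1 else 0 := by
    intro x; rw [TT, card_filter]
  simp_rw [h1]
  rw [sum_comm]
  have h2 : ∀ s, (∑ x, if (f a s = x ∨ f b s = x) then 1 else 0) = 2 := by
    intro s
    rw [← card_filter]
    have : (univ.filter (fun x => f a s = x ∨ f b s = x)) = {f a s, f b s} := by
      ext x; simp [eq_comm]
    rw [this, card_pair (h s)]
  simp_rw [h2]
  simp

theorem card_TT_eq {f : Fin 4 → Fin 4 → Fin 4} {a b : Fin 4} (h : ∀ s, f a s ≠ f b s)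
    (h2 : ∀ x, (TT f a b x).card ≤ 2) (x : Fin 4) : (TT f a b x).card = 2 := by
  have h3 := sum_card_TT f a b h
  by_contra hx
  have hlt : (TT f a b x).card < 2 := lt_of_le_of_ne (h2 x) hx
  have : ∑ x, (TT f a b x).card < ∑ _x : Fin 4, 2 :=
    sum_lt_sum (fun i _ => h2 i) ⟨x, mem_univ x, hlt⟩
  simp at this
  omega

/-- The six unordered pairs. -/
def PP : Finset (Fin 4 × Fin 4) := univ.filter (fun p => p.1 < p.2)

/-- `(s, s')` or `(s', s)` belongs to `E`. -/
def adj (E : Finset (Fin 4 × Fin 4)) (s s' : Fin 4) : Prop := (s, s') ∈ E ∨ (s', s) ∈ E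

instance (E : Finset (Fin 4 × Fin 4)) (s s' : Fin 4) : Decidable (adj E s s') := by
  unfold adj; infer_instance

theorem clique_two : ∀ e1 ∈ PP, ∀ e2 ∈ PP, ∀ T : Finset (Fin 4),
    (∀ s ∈ T, ∀ s' ∈ T, s ≠ s' → adj {e1, e2} s s') → T.card ≤ 2 := by
  decide +kernel

theorem disjoint_of_cover : ∀ e1 ∈ PP, ∀ e2 ∈ PP, (∀ d, ∃ s, d ≠ s ∧ adj {e1, e2} d s) →
    e1.1 ≠ e2.1 ∧ e1.1 ≠ e2.2 ∧ e1.2 ≠ e2.1 ∧ e1.2 ≠ e2.2 := by
  decide +kernel

theorem clique_three : ∀ e1 ∈ PP, ∀ e2 ∈ PP, ∀ e3 ∈ PP,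
    (e1.1 ≠ e2.1 ∧ e1.1 ≠ e2.2 ∧ e1.2 ≠ e2.1 ∧ e1.2 ≠ e2.2) → ∀ T : Finset (Fin 4),
    (∀ s ∈ T, ∀ s' ∈ T, s ≠ s' → adj {e1, e2, e3} s s') → T.card ≤ 2 := by
  decide +kernel

/-- The combinatorics of the third level: with `e1`, `e2` disjoint and `e3` a third pair, there
are `q` (the end of the path) whose only neighbour is `u`, where `e3 = {u, v}`. -/
theorem path_three : ∀ e1 ∈ PP, ∀ e2 ∈ PP, ∀ e3 ∈ PP, e3 ≠ e1 → e3 ≠ e2 →
    (e1.1 ≠ e2.1 ∧ e1.1 ≠ e2.2 ∧ e1.2 ≠ e2.1 ∧ e1.2 ≠ e2.2) →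
    ∃ q u v, ((u, v) = e3 ∨ (v, u) = e3) ∧ q ≠ u ∧ q ≠ v ∧ u ≠ v ∧
      ∀ s, q ≠ s → adj {e1, e2, e3} q s → s = u := by
  decide +kernel

section
variable (f : Fin 4 → Fin 4 → Fin 4)

open Classical in
/-- Off-diagonal pairs reached within `i` steps. -/
noncomputable def RR (i : ℕ) : Finset (Fin 4 × Fin 4) := PP.filter (fun p => Rch f i p.1 p.2)

theorem mem_RR {i : ℕ} {p : Fin 4 × Fin 4} : p ∈ RR f i ↔ p.1 < p.2 ∧ Rch f i p.1 p.2 := by
  classical
  simp [RR, PP]

theorem adj_RR {i : ℕ} {a b : Fin 4} (hab : a ≠ b) : adj (RR f i) a b ↔ Rch f i a b := by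
  unfold adj
  rw [mem_RR, mem_RR]
  constructor
  · rintro (⟨_, h⟩ | ⟨_, h⟩)
    · exact h
    · exact h.symm
  · intro h
    rcases lt_or_gt_of_ne hab with h' | h'
    · exact Or.inl ⟨h', h⟩
    · exact Or.inr ⟨h', h.symm⟩

theorem RR_subset (i : ℕ) : RR f i ⊆ RR f (i + 1) := by
  intro p hp
  rw [mem_RR] at hp ⊢
  exact ⟨hp.1, hp.2.succ⟩

theorem stable {i : ℕ} (h : RR f (i + 1) ⊆ RR f i) {j : ℕ} (hj : i ≤ j) {a b : Fin 4}
    (hr : Rch f j a b) : Rch f i a b := by
  induction hj generalizing a b with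
  | refl => exact hr
  | step _ ih =>
    obtain ⟨a', b', h1, h2⟩ := hr
    have h3 : Rch f (i + 1) a b := ⟨a', b', ih h1, h2⟩
    by_cases hab : a = b
    · subst hab; exact Rch.refl f i a
    · rw [← adj_RR f hab] at h3 ⊢
      rcases h3 with h3 | h3
      · exact Or.inl (h h3)
      · exact Or.inr (h h3)

theorem card_PP : (PP).card = 6 := by decide +kernel

theorem delta_le_five : delta f ≤ 5 := by
  by_contra hcon
  push Not at hcon
  have hne : {l | HasDiamond f l}.Nonempty := by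
    by_contra he
    rw [Set.not_nonempty_iff_eq_empty] at he
    simp [delta, he] at hcon
  obtain ⟨k, hk⟩ := hne
  -- no diamonds of length at most 5
  have N : ∀ j ≤ 5, ∀ a b s, a ≠ b → Rch f j a b → f a s ≠ f b s := by
    intro j hj a b s hab hr hs
    have h1 : HasDiamond f j := hr.hasDiamond hab hs
    have h2 : delta f ≤ j := Nat.sInf_le h1
    omega
  obtain ⟨j, _, a0, b0, s0, hab0, hr0, hs0⟩ := HasDiamond.exists_rch hk
  have hj6 : 5 < j := by
    by_contra hj
    exact N j (by omega) a0 b0 s0 hab0 hr0 hs0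
  have strict : ∀ i ≤ 5, (RR f i).card + 1 ≤ (RR f (i + 1)).card := by
    intro i hi
    apply Nat.succ_le_of_lt
    apply card_lt_card
    refine ⟨RR_subset f i, ?_⟩
    intro hst
    exact N i hi a0 b0 s0 hab0 (stable f hst (by omega) hr0) hs0
  have h6 : (RR f 6).card ≤ 6 := by
    classical
    calc (RR f 6).card ≤ (PP).card := card_le_card (by unfold RR; exact filter_subset _ _)
      _ = 6 := card_PP
  have s0' := strict 0 (by norm_num)
  have s1' := strict 1 (by norm_num)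
  have s2' := strict 2 (by norm_num)
  have s3' := strict 3 (by norm_num)
  have s4' := strict 4 (by norm_num)
  have s5' := strict 5 (by norm_num)
  norm_num at s0' s1' s2' s3' s4' s5'
  have c1 : (RR f 1).card = 1 := by omega
  have c2 : (RR f 2).card = 2 := by omega
  have c3 : (RR f 3).card = 3 := by omega
  obtain ⟨e1, he1⟩ := card_eq_one.mp c1
  have hsub12 := RR_subset f 1
  have hsub23 := RR_subset f 2
  norm_num at hsub12 hsub23
  -- the second pair
  obtain ⟨e2, he2⟩ : ∃ e2, RR f 2 = {e1, e2} := by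
    have hmem : e1 ∈ RR f 2 := hsub12 (by rw [he1]; simp)
    obtain ⟨x, y, hxy, hx⟩ := card_eq_two.mp c2
    rw [hx] at hmem ⊢
    simp only [mem_insert, mem_singleton] at hmem
    rcases hmem with rfl | rfl
    · exact ⟨y, rfl⟩
    · exact ⟨x, pair_comm _ _⟩
  have hne12 : e1 ≠ e2 := by
    intro h
    rw [he2, h] at c2
    simp at c2
  obtain ⟨e3, he3⟩ : ∃ e3, RR f 3 = {e1, e2, e3} := by
    have hss : ({e1, e2} : Finset _) ⊆ RR f 3 := he2 ▸ hsub23
    have hc : (RR f 3 \ {e1, e2}).card = 1 := by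
      rw [card_sdiff_of_subset hss, c3, card_pair hne12]
    obtain ⟨e3, he3⟩ := card_eq_one.mp hc
    refine ⟨e3, ?_⟩
    have : RR f 3 = {e1, e2} ∪ (RR f 3 \ {e1, e2}) := by
      rw [union_sdiff_of_subset hss]
    rw [this, he3]
    ext x
    simp only [mem_union, mem_insert, mem_singleton]
    tauto
  have he3' : e3 ≠ e1 ∧ e3 ≠ e2 := by
    constructor
    · rintro rfl
      rw [he3] at c3
      have : ({e3, e2, e3} : Finset (Fin 4 × Fin 4)).card ≤ 2 := by
        have : ({e3, e2, e3} : Finset (Fin 4 × Fin 4)) = {e3, e2} := by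
          ext x; simp only [mem_insert, mem_singleton]; tauto
        rw [this]; exact card_le_two
      omega
    · rintro rfl
      rw [he3] at c3
      have : ({e1, e3, e3} : Finset (Fin 4 × Fin 4)).card ≤ 2 := by
        have : ({e1, e3, e3} : Finset (Fin 4 × Fin 4)) = {e1, e3} := by
          ext x; simp only [mem_insert, mem_singleton]; tauto
        rw [this]; exact card_le_two
      omega
  -- membership facts
  have m1 : e1 ∈ RR f 1 := by rw [he1]; simp
  have m2 : e2 ∈ RR f 2 := by rw [he2]; simp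
  have m3 : e3 ∈ RR f 3 := by rw [he3]; simp
  have p1 : e1 ∈ PP := by rw [PP, mem_filter]; exact ⟨mem_univ _, ((mem_RR f).mp m1).1⟩
  have p2 : e2 ∈ PP := by rw [PP, mem_filter]; exact ⟨mem_univ _, ((mem_RR f).mp m2).1⟩
  have p3 : e3 ∈ PP := by rw [PP, mem_filter]; exact ⟨mem_univ _, ((mem_RR f).mp m3).1⟩
  obtain ⟨l1, r1⟩ := (mem_RR f).mp m1
  obtain ⟨l2, r2⟩ := (mem_RR f).mp m2
  obtain ⟨l3, r3⟩ := (mem_RR f).mp m3
  -- cliques
  have clq : ∀ i ≤ 5, ∀ a b, a ≠ b → Rch f i a b → ∀ x, ∀ s ∈ TT f a b x,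
      ∀ s' ∈ TT f a b x, s ≠ s' → adj (RR f (i + 1)) s s' := by
    intro i hi a b hab hr x s hs s' hs' hss
    rw [adj_RR f hss]
    rw [mem_TT] at hs hs'
    rcases hs with hs | hs <;> rcases hs' with hs' | hs'
    · exact ⟨a, a, Rch.refl f i a, by rw [hs, hs']⟩
    · exact ⟨a, b, hr, by rw [hs, hs']⟩
    · exact ⟨b, a, hr.symm, by rw [hs, hs']⟩
    · exact ⟨b, b, Rch.refl f i b, by rw [hs, hs']⟩
  -- first level: e1 and e2 are disjoint
  have dj : e1.1 ≠ e2.1 ∧ e1.1 ≠ e2.2 ∧ e1.2 ≠ e2.1 ∧ e1.2 ≠ e2.2 := by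
    apply disjoint_of_cover e1 p1 e2 p2
    intro d
    have hc := clq 1 (by norm_num) e1.1 e1.2 (ne_of_lt l1) r1
    norm_num at hc
    rw [he2] at hc
    have hcard := card_TT_eq (fun s => N 1 (by norm_num) e1.1 e1.2 s (ne_of_lt l1) r1)
      (fun x => clique_two e1 p1 e2 p2 _ (hc x)) (f e1.1 d)
    have hd : d ∈ TT f e1.1 e1.2 (f e1.1 d) := mem_TT.mpr (Or.inl rfl)
    obtain ⟨s, hs, hsd⟩ := exists_mem_ne (by omega : 1 < (TT f e1.1 e1.2 (f e1.1 d)).card) d
    exact ⟨s, hsd.symm, hc _ d hd s hs hsd.symm⟩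
  -- second level
  have hc2 := clq 2 (by norm_num) e2.1 e2.2 (ne_of_lt l2) r2
  norm_num at hc2
  rw [he3] at hc2
  have hNC : ∀ s, f e2.1 s ≠ f e2.2 s := fun s => N 2 (by norm_num) e2.1 e2.2 s (ne_of_lt l2) r2
  have hcard := card_TT_eq hNC (fun x => clique_three e1 p1 e2 p2 e3 p3 dj _ (hc2 x))
  obtain ⟨q, u, v, huv, hqu, hqv, huv', honly⟩ := path_three e1 p1 e2 p2 e3 p3 he3'.1 he3'.2 dj
  -- e3 is a successor of e2
  have hne2 : ¬ Rch f 2 u v := by
    intro h
    rw [← adj_RR f huv', he2] at h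
    unfold adj at h
    simp only [mem_insert, mem_singleton] at h
    rcases huv with huv | huv
    · rcases h with (h | h) | (h | h)
      · exact he3'.1 (huv ▸ h)
      · exact he3'.2 (huv ▸ h)
      · have hlt : v < u := by
          have := l1; rw [← h] at this; exact this
        have hlt' : u < v := by
          have := l3; rw [← huv] at this; exact this
        exact absurd hlt (not_lt.mpr hlt'.le)
      · have hlt : v < u := by
          have := l2; rw [← h] at this; exact this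
        have hlt' : u < v := by
          have := l3; rw [← huv] at this; exact this
        exact absurd hlt (not_lt.mpr hlt'.le)
    · rcases h with (h | h) | (h | h)
      · have hlt : u < v := by
          have := l1; rw [← h] at this; exact this
        have hlt' : v < u := by
          have := l3; rw [← huv] at this; exact this
        exact absurd hlt (not_lt.mpr hlt'.le)
      · have hlt : u < v := by
          have := l2; rw [← h] at this; exact this
        have hlt' : v < u := by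
          have := l3; rw [← huv] at this; exact this
        exact absurd hlt (not_lt.mpr hlt'.le)
      · exact he3'.1 (huv ▸ h)
      · exact he3'.2 (huv ▸ h)
  have hr3 : Rch f 3 u v := by
    rcases huv with huv | huv
    · rw [← huv] at r3; exact r3
    · rw [← huv] at r3; exact r3.symm
  obtain ⟨a, b, hab2, hlab⟩ := hr3
  have hx0 : ∃ x0, u ∈ TT f e2.1 e2.2 x0 ∧ v ∈ TT f e2.1 e2.2 x0 := by
    by_cases hab : a = b
    · subst hab
      exact absurd (Rch.mono (by norm_num : 1 ≤ 2) ⟨a, a, Rch.refl f 0 a, hlab⟩) hne2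
    · have h := hab2
      rw [← adj_RR f hab, he2] at h
      unfold adj at h
      simp only [mem_insert, mem_singleton] at h
      rcases h with (h | h) | (h | h)
      · have : Rch f 1 a b := by rw [← h] at r1; exact r1
        exact absurd ⟨a, b, this, hlab⟩ hne2
      · refine ⟨f a u, ?_, ?_⟩
        · rw [← h]; exact mem_TT.mpr (Or.inl rfl)
        · rw [← h]; exact mem_TT.mpr (Or.inr hlab.symm)
      · have : Rch f 1 b a := by rw [← h] at r1; exact r1
        exact absurd ⟨a, b, this.symm, hlab⟩ hne2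
      · refine ⟨f a u, ?_, ?_⟩
        · rw [← h]; exact mem_TT.mpr (Or.inr rfl)
        · rw [← h]; exact mem_TT.mpr (Or.inl hlab.symm)
  obtain ⟨x0, hu0, hv0⟩ := hx0
  -- the two labels at q
  have hq : ∀ x, q ∈ TT f e2.1 e2.2 x → u ∈ TT f e2.1 e2.2 x := by
    intro x hx
    obtain ⟨s, hs, hsd⟩ := exists_mem_ne
      (by rw [hcard x]; norm_num : 1 < (TT f e2.1 e2.2 x).card) q
    have := honly s hsd.symm (hc2 x q hx s hs hsd.symm)
    rw [← this]; exact hs
  have hqa := hq (f e2.1 q) (mem_TT.mpr (Or.inl rfl))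
  have hqb := hq (f e2.2 q) (mem_TT.mpr (Or.inr rfl))
  have hqne := hNC q
  rw [mem_TT] at hqa hqb hu0
  have hx0q : q ∈ TT f e2.1 e2.2 x0 := by
    rw [mem_TT]
    rcases hu0 with hu0 | hu0
    · rcases hqa with hqa | hqa
      · left; rw [← hqa, hu0]
      · rcases hqb with hqb | hqb
        · right; rw [← hqb, hu0]
        · exact absurd (hqa.symm.trans hqb) hqne
    · rcases hqb with hqb | hqb
      · rcases hqa with hqa | hqa
        · exact absurd (hqa.symm.trans hqb) hqne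
        · left; rw [← hqa, hu0]
      · right; rw [← hqb, hu0]
  have h3 : 2 < (TT f e2.1 e2.2 x0).card := by
    rw [two_lt_card]
    exact ⟨q, hx0q, u, mem_TT.mpr hu0, v, hv0, hqu, hqv, huv'⟩
  rw [hcard x0] at h3
  omega

end

end Pool.Agent.Lib.MP_b60c25_lc
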