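import Pool.Agent.Lib.MP_b60c25_lc.Lin

/-!
For every `r ≥ 5` and every `e ≥ 1` an automaton with `(e + 1) r` states whose shortest
diamond has length at least `(r - 1) e + 2`: the local rule and its potential, on natural numbers.
The states are the pairs `(i, t)` with `i ≤ e` (the index) and `t < r` (the type).
-/

namespace Pool.Agent.Lib.MP_b60c25_lc

/-- The type of the image of a row of type `t` and a column of type `s`: the difference `s - t`
modulo `r`. -/
def lam (r t s : ℕ) : ℕ := if t ≤ s then s - t else s + r - t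

/-- The index of the image of the row `(i, t)` and a column of index `x`, if the type of the image
is `l`. -/
def idx (e i t x l : ℕ) : ℕ :=
  if l = 0 ∧ i < e ∧ (1 ≤ i ∨ t = 0) then (if x = i then i + 1 else if x = i + 1 then i else x)
  else if l = 1 ∧ i = e then (if x = 0 then 1 else if x = 1 then 0 else x)
  else x

/-- The local rule (index): row `(i, t)`, column `(x, s)`. -/
def F1 (e r i t x s : ℕ) : ℕ :=
  if i = e ∧ x = 0 ∧ s = 2 ∧ r ≤ t + 2 then 0 else idx e i t x (lam r t s)

/-- The local rule (type): row `(i, t)`, column `(x, s)`. -/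
def F2 (e r i t x s : ℕ) : ℕ :=
  if i = e ∧ x = 0 ∧ s = 2 ∧ r ≤ t + 2 then (if t + 2 = r then 3 else 4) else lam r t s

/-- The potential. -/
def HH (e r i t j u : ℕ) : ℕ :=
  if t = u then (r - 1) * e + 2
  else if i = j then
    (if i = 0 ∧ ((t = 2 ∧ (u = 1 ∨ u = 3)) ∨ (u = 2 ∧ (t = 1 ∨ t = 3))) then 1 else 2)
  else min t u * e + max i j + 2

theorem lam_lt {r t s : ℕ} (hr : 5 ≤ r) (ht : t < r) (hs : s < r) : lam r t s < r := by
  unfold lam
  split_ifs <;> omega

theorem idx_le {e i t x l : ℕ} (he : 1 ≤ e) (hx : x ≤ e) : idx e i t x l ≤ e := by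
  unfold idx
  split_ifs <;> omega

theorem F1_le {e r i t x s : ℕ} (he : 1 ≤ e) (hx : x ≤ e) : F1 e r i t x s ≤ e := by
  unfold F1
  split_ifs
  · omega
  · exact idx_le he hx

theorem F2_lt {e r i t x s : ℕ} (hr : 5 ≤ r) (ht : t < r) (hs : s < r) :
    F2 e r i t x s < r := by
  unfold F2
  split_ifs
  · omega
  · omega
  · exact lam_lt hr ht hs

/-- `lam` is injective in the column. -/
theorem lam_inj_right {r t s v : ℕ} (hr : 5 ≤ r) (ht : t < r) (hs : s < r)
    (hv : v < r) (h : lam r t s = lam r t v) : s = v := by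
  unfold lam at h
  split_ifs at h <;> omega

/-- `lam` is injective in the row. -/
theorem lam_inj_left {r t u s : ℕ} (hr : 5 ≤ r) (ht : t < r) (hu : u < r)
    (hs : s < r) (h : lam r t s = lam r u s) : t = u := by
  unfold lam at h
  split_ifs at h <;> omega

theorem lam_zero {r t s : ℕ} (ht : t < r) (h : lam r t s = 0) :
    s = t := by
  unfold lam at h
  split_ifs at h <;> omega

theorem lam_one {r t s : ℕ} (ht : t < r) (h : lam r t s = 1) :
    s = t + 1 ∨ (t + 1 = r ∧ s = 0) := by
  unfold lam at h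
  split_ifs at h <;> omega

theorem idx_inj {e i t x y l : ℕ} (h : idx e i t x l = idx e i t y l) : x = y := by
  unfold idx at h
  split_ifs at h <;> omega

theorem idx_one (e i t x : ℕ) : idx e i t x 1 =
    if i = e then (if x = 0 then 1 else if x = 1 then 0 else x) else x := by
  unfold idx
  rw [if_neg (by omega)]
  by_cases h : i = e
  · rw [if_pos ⟨rfl, h⟩, if_pos h]
  · rw [if_neg (fun hh => h hh.2), if_neg h]

theorem idx_two {e i t x l : ℕ} (hl : 2 ≤ l) : idx e i t x l = x := by
  unfold idx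
  rw [if_neg (by omega), if_neg (by omega)]

theorem HH_symm (e r i t j u : ℕ) : HH e r i t j u = HH e r j u i t := by
  unfold HH
  rw [Nat.min_comm t u, Nat.max_comm i j]
  split_ifs <;> omega

theorem HH_pos (e r i t j u : ℕ) : 1 ≤ HH e r i t j u := by
  unfold HH
  split_ifs <;> omega

theorem HH_same {e r i t u : ℕ} (h : t ≠ u) : HH e r i t i u ≤ 2 := by
  unfold HH
  rw [if_neg h, if_pos rfl]
  split_ifs <;> omega

theorem HH_ne {e r i t j u : ℕ} (h : t ≠ u) (h' : i ≠ j) :
    HH e r i t j u = min t u * e + max i j + 2 := by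
  unfold HH
  rw [if_neg h, if_neg h']

theorem HH_le {e r i t j u : ℕ} (he : 1 ≤ e) (hr : 5 ≤ r) (ht : t < r) (hu : u < r)
    (hi : i ≤ e) (hj : j ≤ e) : HH e r i t j u ≤ (r - 1) * e + 2 := by
  by_cases h : t = u
  · unfold HH
    rw [if_pos h]
  by_cases h' : i = j
  · subst h'
    have h1 := HH_same (e := e) (r := r) (i := i) h
    omega
  · rw [HH_ne h h']
    have h1 : min t u ≤ r - 2 := by omega
    have h2 : min t u * e ≤ (r - 2) * e := Nat.mul_le_mul_right e h1
    have h3 : (r - 1) * e = (r - 2) * e + e := by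
      obtain ⟨k, rfl⟩ := Nat.exists_eq_add_of_le hr
      have e1 : 5 + k - 1 = (3 + k) + 1 := by omega
      have e2 : 5 + k - 2 = 3 + k := by omega
      rw [e1, e2]
      ring
    have h4 : max i j ≤ e := by omega
    omega

/-- two equal letters in one row: only the two changed entries -/
theorem F_row_aux {e r i t x s y v : ℕ} (ht : t < r) (hr : 5 ≤ r)
    (hv : v < r) (hne : ¬ (x = y ∧ s = v)) (hd : i = e ∧ x = 0 ∧ s = 2 ∧ r ≤ t + 2)
    (h1 : F1 e r i t x s = F1 e r i t y v) (h2 : F2 e r i t x s = F2 e r i t y v) :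
    HH e r x s y v ≤ 1 := by
  have hd' : ¬ (i = e ∧ y = 0 ∧ v = 2 ∧ r ≤ t + 2) := by omega
  unfold F1 at h1
  unfold F2 at h2
  rw [if_pos hd, if_neg hd'] at h1 h2
  have h3 : v = 1 ∨ v = 3 := by
    unfold lam at h2
    split_ifs at h2 <;> omega
  have h4 : 2 ≤ lam r t v := by
    rw [← h2]
    split_ifs <;> omega
  rw [idx_two h4] at h1
  obtain ⟨_, rfl, rfl, _⟩ := hd
  subst h1
  unfold HH
  rw [if_neg (by omega), if_pos rfl, if_pos (by omega)]

theorem F_row {e r i t x s y v : ℕ} (hr : 5 ≤ r) (ht : t < r)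
    (hs : s < r) (hv : v < r) (hne : ¬ (x = y ∧ s = v))
    (h1 : F1 e r i t x s = F1 e r i t y v) (h2 : F2 e r i t x s = F2 e r i t y v) :
    HH e r x s y v ≤ 1 := by
  by_cases hd : i = e ∧ x = 0 ∧ s = 2 ∧ r ≤ t + 2
  · exact F_row_aux ht hr hv hne hd h1 h2
  by_cases hd' : i = e ∧ y = 0 ∧ v = 2 ∧ r ≤ t + 2
  · rw [HH_symm]
    exact F_row_aux ht hr hs (fun h => hne ⟨h.1.symm, h.2.symm⟩) hd' h1.symm h2.symm
  exfalso
  unfold F1 at h1
  unfold F2 at h2
  rw [if_neg hd, if_neg hd'] at h1 h2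
  have h3 := lam_inj_right hr ht hs hv h2
  subst h3
  exact hne ⟨idx_inj h1, rfl⟩

/-- steps with a changed entry -/
theorem F_step_aux {e r i t j u x s y v : ℕ} (hne : ¬ (x = y ∧ s = v))
    (hd : i = e ∧ x = 0 ∧ s = 2 ∧ r ≤ t + 2)
    (h1 : F1 e r i t x s = F1 e r j u y v) (h2 : F2 e r i t x s = F2 e r j u y v) :
    HH e r x s y v ≤ HH e r i t j u + 1 := by
  have hd' : ¬ (j = e ∧ y = 0 ∧ v = 2 ∧ r ≤ u + 2) := by omega
  unfold F1 at h1
  unfold F2 at h2
  rw [if_pos hd, if_neg hd'] at h1 h2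
  have h4 : 2 ≤ lam r u v := by
    rw [← h2]
    split_ifs <;> omega
  rw [idx_two h4] at h1
  obtain ⟨_, rfl, rfl, _⟩ := hd
  subst h1
  have h5 := HH_pos e r i t j u
  have h6 : HH e r 0 2 0 v ≤ 2 := HH_same (by omega)
  omega

/-- steps from a pair of rows of different types, without a changed entry -/
theorem F_step_main {e r i t j u x s y v : ℕ} (he : 1 ≤ e) (hr : 5 ≤ r)
    (ht : t < r) (hu : u < r) (hs : s < r) (hi : i ≤ e) (hj : j ≤ e) (htu : t ≠ u)
    (h1 : idx e i t x (lam r t s) = idx e j u y (lam r u v)) (h2 : lam r t s = lam r u v) :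
    HH e r x s y v ≤ HH e r i t j u + 1 := by
  have hsv : s ≠ v := by
    rintro rfl
    exact htu (lam_inj_left hr ht hu hs h2)
  have hp := HH_pos e r i t j u
  by_cases hxy : x = y
  · subst hxy
    have := HH_same (e := e) (r := r) (i := x) hsv
    omega
  rw [HH_ne hsv hxy]
  rcases Nat.lt_or_ge (lam r t s) 2 with hl | hl
  · have hl' : lam r t s = 0 ∨ lam r t s = 1 := by omega
    rcases hl' with hl0 | hl1
    · have e1 := lam_zero ht hl0
      have e2 := lam_zero hu (h2.symm.trans hl0)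
      rw [← h2, hl0] at h1
      subst e1
      subst e2
      by_cases hij : i = j
      · subst hij
        have h3 : i = 0 ∧ (s = 0 ∨ v = 0) ∧ max x y = 1 := by
          unfold idx at h1
          split_ifs at h1 <;> omega
        obtain ⟨rfl, h4, h5⟩ := h3
        have h6 : min s v = 0 := by omega
        rw [h5, h6]
        have h7 : HH e r 0 s 0 v = 2 := by
          unfold HH
          rw [if_neg htu, if_pos rfl, if_neg (by omega)]
        rw [h7]
        omega
      · rw [HH_ne htu hij]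
        have h3 : max x y ≤ max i j + 1 := by
          have hi' := le_max_left i j
          have hj' := le_max_right i j
          have h4 : x ≤ max i j + 1 ∧ y ≤ max i j + 1 := by
            generalize max i j = m at hi' hj' ⊢
            clear hp
            unfold idx at h1
            split_ifs at h1 <;> omega
          exact max_le h4.1 h4.2
        omega
    · have e1 := lam_one ht hl1
      have e2 := lam_one hu (h2.symm.trans hl1)
      rw [← h2, hl1] at h1
      have h0 : (i = e ∧ j ≠ e ∧ ((x = 0 ∧ y = 1) ∨ (x = 1 ∧ y = 0))) ∨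
          (j = e ∧ i ≠ e ∧ ((x = 0 ∧ y = 1) ∨ (x = 1 ∧ y = 0))) := by
        clear hp e1 e2
        rw [idx_one, idx_one] at h1
        split_ifs at h1 <;> omega
      have h3 : i ≠ j ∧ max i j = e ∧ max x y = 1 := by
        clear h1 e1 e2
        rcases h0 with ⟨h4, h5, h6 | h6⟩ | ⟨h4, h5, h6 | h6⟩
        · refine ⟨by omega, ?_, ?_⟩
          · rw [max_eq_left (by omega)]; exact h4
          · rw [max_eq_right (by omega)]; omega
        · refine ⟨by omega, ?_, ?_⟩
          · rw [max_eq_left (by omega)]; exact h4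
          · rw [max_eq_left (by omega)]; omega
        · refine ⟨by omega, ?_, ?_⟩
          · rw [max_eq_right (by omega)]; exact h4
          · rw [max_eq_right (by omega)]; omega
        · refine ⟨by omega, ?_, ?_⟩
          · rw [max_eq_right (by omega)]; exact h4
          · rw [max_eq_left (by omega)]; omega
      obtain ⟨hij, h4, h5⟩ := h3
      rw [HH_ne htu hij, h4, h5]
      have h6 : min s v ≤ min t u + 1 := by omega
      have h7 : min s v * e ≤ (min t u + 1) * e := Nat.mul_le_mul_right e h6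
      have h8 : (min t u + 1) * e = min t u * e + e := by ring
      omega
  · exfalso
    rw [← h2, idx_two hl, idx_two hl] at h1
    exact hxy h1

theorem F_step {e r i t j u x s y v : ℕ} (he : 1 ≤ e) (hr : 5 ≤ r)
    (ht : t < r) (hu : u < r) (hs : s < r) (hv : v < r) (hi : i ≤ e) (hj : j ≤ e)
    (hx : x ≤ e) (hy : y ≤ e) (hne : ¬ (x = y ∧ s = v))
    (h1 : F1 e r i t x s = F1 e r j u y v) (h2 : F2 e r i t x s = F2 e r j u y v) :
    HH e r x s y v ≤ HH e r i t j u + 1 := by
  by_cases htu : t = u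
  · have h3 := HH_le he hr hs hv hx hy
    have h4 : HH e r i t j u = (r - 1) * e + 2 := by
      unfold HH
      rw [if_pos htu]
    omega
  by_cases hd : i = e ∧ x = 0 ∧ s = 2 ∧ r ≤ t + 2
  · exact F_step_aux hne hd h1 h2
  by_cases hd' : j = e ∧ y = 0 ∧ v = 2 ∧ r ≤ u + 2
  · rw [HH_symm e r x s y v, HH_symm e r i t j u]
    exact F_step_aux (fun h => hne ⟨h.1.symm, h.2.symm⟩) hd' h1.symm h2.symm
  unfold F1 at h1
  unfold F2 at h2
  rw [if_neg hd, if_neg hd'] at h1 h2
  exact F_step_main he hr ht hu hs hi hj htu h1 h2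

/-- the end of a diamond, with a changed entry -/
theorem F_end_aux {e r i t j u x s : ℕ} (hr : 5 ≤ r)
    (ht : t < r) (hu : u < r) (hj : j ≤ e) (htu : t ≠ u)
    (hd : i = e ∧ x = 0 ∧ s = 2 ∧ r ≤ t + 2) (h2 : F2 e r i t x s = F2 e r j u x s) :
    (r - 1) * e + 2 ≤ HH e r i t j u := by
  obtain ⟨rfl, rfl, rfl, hd⟩ := hd
  unfold F2 at h2
  rw [if_pos ⟨rfl, rfl, rfl, hd⟩] at h2
  have h3 : j ≠ i ∧ min t u = r - 2 := by
    by_cases hd' : j = i ∧ 0 = 0 ∧ 2 = 2 ∧ r ≤ u + 2
    · rw [if_pos hd'] at h2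
      split_ifs at h2 <;> omega
    · rw [if_neg hd'] at h2
      unfold lam at h2
      split_ifs at h2 <;> omega
  obtain ⟨h4, h5⟩ := h3
  rw [HH_ne htu (Ne.symm h4), h5]
  have h6 : (r - 1) * i = (r - 2) * i + i := by
    obtain ⟨k, rfl⟩ := Nat.exists_eq_add_of_le hr
    have e1 : 5 + k - 1 = (3 + k) + 1 := by omega
    have e2 : 5 + k - 2 = 3 + k := by omega
    rw [e1, e2]
    ring
  have h7 : max i j = i := by omega
  omega

theorem F_end {e r i t j u x s : ℕ} (hr : 5 ≤ r)
    (ht : t < r) (hu : u < r) (hs : s < r) (hi : i ≤ e) (hj : j ≤ e)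
    (h2 : F2 e r i t x s = F2 e r j u x s) :
    (r - 1) * e + 2 ≤ HH e r i t j u := by
  by_cases htu : t = u
  · unfold HH
    rw [if_pos htu]
  by_cases hd : i = e ∧ x = 0 ∧ s = 2 ∧ r ≤ t + 2
  · exact F_end_aux hr ht hu hj htu hd h2
  by_cases hd' : j = e ∧ x = 0 ∧ s = 2 ∧ r ≤ u + 2
  · rw [HH_symm]
    exact F_end_aux hr hu ht hi (Ne.symm htu) hd' h2.symm
  exfalso
  unfold F2 at h2
  rw [if_neg hd, if_neg hd'] at h2
  exact htu (lam_inj_left hr ht hu hs h2)

end Pool.Agent.Lib.MP_b60c25_lc
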