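import Pool.Agent.Lib.MP_b60c25_lc.Full

/-!
For every `r ≥ 5` and every `e ≥ 1` an automaton with `(e + 1) r` states whose shortest
diamond has length at least `(r - 1) e + 2`.
-/

namespace Pool.Agent.Lib.MP_b60c25_lc

/-- Transport of paths to `Fin n`. -/
theorem Rch.transport {S : Type} {n : ℕ} (q : S ≃ Fin n) (f : S → S → S) {i : ℕ} {a b : S}
    (h : Rch f i a b) :
    Rch (fun x y => q (f (q.symm x) (q.symm y))) i (q a) (q b) := by
  induction i generalizing a b with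
  | zero => cases h; rfl
  | succ i ih =>
    obtain ⟨a', b', h1, h2⟩ := h
    refine ⟨q a', q b', ih h1, ?_⟩
    simp only [Equiv.symm_apply_apply]
    rw [h2]

/-- The lower bound of `D n` by an automaton on a state set with `n` elements. -/
theorem le_D_of_equiv {S : Type} {n : ℕ} (q : S ≃ Fin n) (f : S → S → S) (L : ℕ) (h : S → S → ℕ)
    (h1 : ∀ p c d, c ≠ d → f p c = f p d → h c d ≤ 1)
    (h2 : ∀ a b c d, a ≠ b → c ≠ d → f a c = f b d → h c d ≤ h a b + 1)
    (h3 : ∀ a b s, a ≠ b → f a s = f b s → L ≤ h a b)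
    {i : ℕ} {a b s : S} (hr : Rch f i a b) (hab : a ≠ b) (hs : f a s = f b s) : L ≤ D n := by
  refine le_D_of (fun x y => q (f (q.symm x) (q.symm y)))
    ((hr.transport q).hasDiamond (s := q s) (fun he => hab (q.injective he)) ?_) ?_
  · simp only [Equiv.symm_apply_apply]
    rw [hs]
  · intro l hl
    refine le_of_potential L (fun x y => h (q.symm x) (q.symm y)) ?_ ?_ ?_ hl
    · intro p c d hcd he
      exact h1 _ _ _ (fun hh => hcd (q.symm.injective hh)) (q.injective he)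
    · intro a b c d hab hcd he
      exact h2 _ _ _ _ (fun hh => hab (q.symm.injective hh))
        (fun hh => hcd (q.symm.injective hh)) (q.injective he)
    · intro a b s hab he
      exact h3 _ _ (q.symm s) (fun hh => hab (q.symm.injective hh)) (q.injective he)

/-- The automaton. -/
def FF (e r : ℕ) (he : 1 ≤ e) (hr : 5 ≤ r) (p c : Fin (e + 1) × Fin r) : Fin (e + 1) × Fin r :=
  (⟨F1 e r p.1 p.2 c.1 c.2, Nat.lt_succ_of_le (F1_le he (Nat.le_of_lt_succ c.1.2))⟩,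
    ⟨F2 e r p.1 p.2 c.1 c.2, F2_lt hr p.2.2 c.2.2⟩)

theorem FF_eq {e r : ℕ} {he : 1 ≤ e} {hr : 5 ≤ r} {p c q d : Fin (e + 1) × Fin r}
    (h : FF e r he hr p c = FF e r he hr q d) :
    F1 e r p.1 p.2 c.1 c.2 = F1 e r q.1 q.2 d.1 d.2 ∧
      F2 e r p.1 p.2 c.1 c.2 = F2 e r q.1 q.2 d.1 d.2 := by
  have h1 := congrArg Prod.fst h
  have h2 := congrArg Prod.snd h
  exact ⟨congrArg Fin.val h1, congrArg Fin.val h2⟩

theorem pair_ne {e r : ℕ} {c d : Fin (e + 1) × Fin r} (h : c ≠ d) :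
    ¬ ((c.1 : ℕ) = d.1 ∧ (c.2 : ℕ) = d.2) :=
  fun hh => h (Prod.ext (Fin.ext hh.1) (Fin.ext hh.2))

/-- Paths, with the states given by numbers. -/
def RR (e r : ℕ) (he : 1 ≤ e) (hr : 5 ≤ r) (l i t j u : ℕ) : Prop :=
  ∃ (hi : i < e + 1) (ht : t < r) (hj : j < e + 1) (hu : u < r),
    Rch (FF e r he hr) l (⟨i, hi⟩, ⟨t, ht⟩) (⟨j, hj⟩, ⟨u, hu⟩)

theorem RR.step {e r : ℕ} {he : 1 ≤ e} {hr : 5 ≤ r} {l i t j u : ℕ}
    (h : RR e r he hr l i t j u) {x s y v : ℕ} (hx : x < e + 1) (hs : s < r) (hy : y < e + 1)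
    (hv : v < r) (h1 : F1 e r i t x s = F1 e r j u y v) (h2 : F2 e r i t x s = F2 e r j u y v) :
    RR e r he hr (l + 1) x s y v := by
  obtain ⟨hi, ht, hj, hu, h⟩ := h
  refine ⟨hx, hs, hy, hv, _, _, h, ?_⟩
  exact Prod.ext (Fin.ext h1) (Fin.ext h2)

theorem F1_eq {e r i t x s : ℕ} (h : ¬ (i = e ∧ x = 0 ∧ s = 2 ∧ r ≤ t + 2)) :
    F1 e r i t x s = idx e i t x (lam r t s) := if_neg h

theorem F2_eq {e r i t x s : ℕ} (h : ¬ (i = e ∧ x = 0 ∧ s = 2 ∧ r ≤ t + 2)) :
    F2 e r i t x s = lam r t s := if_neg h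

theorem F1_def {e r t : ℕ} (h : r ≤ t + 2) : F1 e r e t 0 2 = 0 := if_pos ⟨rfl, rfl, rfl, h⟩

theorem F2_def {e r t : ℕ} (h : r ≤ t + 2) : F2 e r e t 0 2 = if t + 2 = r then 3 else 4 :=
  if_pos ⟨rfl, rfl, rfl, h⟩

theorem lam_self (r t : ℕ) : lam r t t = 0 := by
  unfold lam
  split_ifs <;> omega

theorem lam_succ (r t : ℕ) : lam r t (t + 1) = 1 := by
  unfold lam
  split_ifs <;> omega

theorem idx_zero_pos {e i t x : ℕ} (h : i < e ∧ (1 ≤ i ∨ t = 0)) :
    idx e i t x 0 = if x = i then i + 1 else if x = i + 1 then i else x :=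
  if_pos ⟨rfl, h⟩

theorem idx_zero_neg {e i t x : ℕ} (h : ¬ (i < e ∧ (1 ≤ i ∨ t = 0))) :
    idx e i t x 0 = x := by
  unfold idx
  rw [if_neg (fun hh => h hh.2), if_neg (by omega)]

theorem lam_a {r : ℕ} (hr : 5 ≤ r) : lam r (r - 1) 3 = 4 := by
  unfold lam
  split_ifs <;> omega

theorem lam_b {r : ℕ} : lam r 2 0 = r - 2 := by
  unfold lam
  rw [if_neg (by omega), Nat.zero_add]

theorem lam_c {r : ℕ} (hr : 5 ≤ r) : lam r 3 1 = r - 2 := by
  unfold lam
  rw [if_neg (by omega)]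
  omega

theorem lam_d {r : ℕ} (hr : 5 ≤ r) : lam r (r - 2) 2 = 4 := by
  unfold lam
  split_ifs <;> omega

theorem RR_start {e r : ℕ} (he : 1 ≤ e) (hr : 5 ≤ r) :
    RR e r he hr 3 0 0 1 1 := by
  have h0 : RR e r he hr 0 e (r - 1) e (r - 1) :=
    ⟨by omega, by omega, by omega, by omega, rfl⟩
  have h1 : RR e r he hr 1 0 2 0 3 := by
    refine h0.step (by omega) (by omega) (by omega) (by omega) ?_ ?_
    · rw [F1_def (by omega), F1_eq (by omega), lam_a hr, idx_two (by omega)]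
    · rw [F2_def (by omega), F2_eq (by omega), lam_a hr, if_neg (by omega)]
  have h2 : RR e r he hr 2 0 0 0 1 := by
    refine h1.step (by omega) (by omega) (by omega) (by omega) ?_ ?_
    · rw [F1_eq (by omega), F1_eq (by omega), lam_b, lam_c hr, idx_two (by omega),
        idx_two (by omega)]
    · rw [F2_eq (by omega), F2_eq (by omega), lam_b, lam_c hr]
  refine h2.step (by omega) (by omega) (by omega) (by omega) ?_ ?_
  · rw [F1_eq (by omega), F1_eq (by omega), lam_self, lam_self, idx_zero_pos (by omega),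
      idx_zero_neg (by omega), if_pos rfl]
  · rw [F2_eq (by omega), F2_eq (by omega), lam_self, lam_self]

theorem RR_phase {e r : ℕ} (he : 1 ≤ e) (hr : 5 ≤ r) {k : ℕ} (hk : k + 1 < r)
    (h : ∃ l, RR e r he hr l 0 k 1 (k + 1)) (j : ℕ) (hj : 1 ≤ j) (hje : j ≤ e) :
    ∃ l, ∃ i, i < j ∧ RR e r he hr l i k j (k + 1) := by
  induction j, hj using Nat.le_induction with
  | base =>
    obtain ⟨l, h⟩ := h
    exact ⟨l, 0, by omega, h⟩
  | succ j hj ih =>
    obtain ⟨l, i, hi, hl⟩ := ih (by omega)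
    have e1 : F1 e r j (k + 1) (j + 1) (k + 1) = j := by
      rw [F1_eq (by omega), lam_self, idx_zero_pos (by omega), if_neg (by omega), if_pos rfl]
    have e2 : F2 e r j (k + 1) (j + 1) (k + 1) = 0 := by
      rw [F2_eq (by omega), lam_self]
    by_cases h1 : i + 1 = j ∧ (1 ≤ i ∨ k = 0)
    · refine ⟨l + 1, i, by omega, hl.step (by omega) (by omega) (by omega) (by omega) ?_ ?_⟩
      · rw [e1, F1_eq (by omega), lam_self, idx_zero_pos (by omega), if_pos rfl]
        exact h1.1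
      · rw [e2, F2_eq (by omega), lam_self]
    · refine ⟨l + 1, j, by omega, hl.step (by omega) (by omega) (by omega) (by omega) ?_ ?_⟩
      · rw [e1, F1_eq (by omega), lam_self]
        by_cases h2 : i < e ∧ (1 ≤ i ∨ k = 0)
        · rw [idx_zero_pos h2, if_neg (by omega), if_neg]
          intro h3
          exact h1 ⟨h3.symm, h2.2⟩
        · rw [idx_zero_neg h2]
      · rw [e2, F2_eq (by omega), lam_self]

theorem RR_seed {e r : ℕ} (he : 1 ≤ e) (hr : 5 ≤ r) (k : ℕ) (hk : k + 1 < r) :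
    ∃ l, RR e r he hr l 0 k 1 (k + 1) := by
  induction k with
  | zero => exact ⟨3, RR_start he hr⟩
  | succ k ih =>
    obtain ⟨l, i, hi, h⟩ := RR_phase he hr (by omega) (ih (by omega)) e he le_rfl
    refine ⟨l + 1, h.step (by omega) (by omega) (by omega) (by omega) ?_ ?_⟩
    · rw [F1_eq (by omega), F1_eq (by omega), lam_succ, lam_succ, idx_one, idx_one,
        if_neg (by omega), if_pos rfl, if_neg (by omega), if_pos rfl]
    · rw [F2_eq (by omega), F2_eq (by omega), lam_succ, lam_succ]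

theorem full {e r : ℕ} (he : 1 ≤ e) (hr : 5 ≤ r) :
    (r - 1) * e + 2 ≤ D ((e + 1) * r) := by
  obtain ⟨l, i, hi, hI, hT, hJ, hU, h⟩ :=
    RR_phase he hr (k := r - 2) (by omega) (RR_seed he hr (r - 2) (by omega)) e he le_rfl
  refine le_D_of_equiv (finProdFinEquiv (m := e + 1) (n := r)) (FF e r he hr) _
    (fun a b => HH e r a.1 a.2 b.1 b.2) ?_ ?_ ?_ (s := (⟨0, by omega⟩, ⟨2, by omega⟩)) h ?_ ?_
  · intro p c d hcd he'
    obtain ⟨h1, h2⟩ := FF_eq he'
    exact F_row hr p.2.2 c.2.2 d.2.2 (pair_ne hcd) h1 h2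
  · intro a b c d _ hcd he'
    obtain ⟨h1, h2⟩ := FF_eq he'
    exact F_step he hr a.2.2 b.2.2 c.2.2 d.2.2 (Nat.le_of_lt_succ a.1.2)
      (Nat.le_of_lt_succ b.1.2) (Nat.le_of_lt_succ c.1.2) (Nat.le_of_lt_succ d.1.2)
      (pair_ne hcd) h1 h2
  · intro a b s hab he'
    obtain ⟨h1, h2⟩ := FF_eq he'
    exact F_end hr a.2.2 b.2.2 s.2.2 (Nat.le_of_lt_succ a.1.2) (Nat.le_of_lt_succ b.1.2) h2
  · intro hh
    have := congrArg (fun z => (z.1 : ℕ)) hh
    simp only at this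
    omega
  · apply Prod.ext
    · apply Fin.ext
      show F1 e r i (r - 2) 0 2 = F1 e r e (r - 2 + 1) 0 2
      rw [F1_def (by omega), F1_eq (by omega), lam_d hr, idx_two (by omega)]
    · apply Fin.ext
      show F2 e r i (r - 2) 0 2 = F2 e r e (r - 2 + 1) 0 2
      rw [F2_def (by omega), F2_eq (by omega), lam_d hr, if_neg (by omega)]

end Pool.Agent.Lib.MP_b60c25_lc
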