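import Pool.Agent.Lib.MP_b60c25_lc.Basic

/-!
A range-2 cellular automaton with a diamond is not surjective (Moore's theorem), by counting the
preimages of words.
-/

namespace Pool.Agent.Lib.MP_b60c25_lc

open Finset

variable {n : ℕ} (f : Fin n → Fin n → Fin n)

/-- the edges with label `x` -/
def Mx (x : Fin n) : Matrix (Fin n) (Fin n) ℕ := fun a b => if f a b = x then 1 else 0

/-- the number of paths with label `w` between two states -/
def MW (w : List (Fin n)) : Matrix (Fin n) (Fin n) ℕ := (w.map (Mx f)).prod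

/-- the number of preimages of the word `w` -/
def NW (w : List (Fin n)) : ℕ := ∑ a, ∑ b, MW f w a b

theorem MW_append (v w : List (Fin n)) : MW f (v ++ w) = MW f v * MW f w := by
  simp [MW]

theorem MW_single (x : Fin n) : MW f [x] = Mx f x := by
  simp [MW]

theorem sum_Mx (a b : Fin n) : ∑ x, Mx f x a b = 1 := by
  simp [Mx]

theorem NW_nil : NW f [] = n := by
  simp [NW, MW, Matrix.one_apply]

theorem sum_NW_append (w : List (Fin n)) : ∑ x, NW f (w ++ [x]) = n * NW f w := by
  have h : ∀ x, NW f (w ++ [x]) = ∑ a, ∑ b, ∑ c, MW f w a c * Mx f x c b := by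
    intro x
    simp only [NW, MW_append, MW_single, Matrix.mul_apply]
  simp only [h]
  rw [sum_comm]
  have h2 : ∀ a : Fin n, ∑ x, ∑ b, ∑ c, MW f w a c * Mx f x c b = n * ∑ c, MW f w a c := by
    intro a
    rw [sum_comm]
    have h3 : ∀ b : Fin n, ∑ x, ∑ c, MW f w a c * Mx f x c b = ∑ c, MW f w a c := by
      intro b
      rw [sum_comm]
      refine sum_congr rfl fun c _ => ?_
      rw [← mul_sum, sum_Mx, mul_one]
    simp [h3]
  simp only [h2, NW, mul_sum]

theorem sum_NW_mid (w : List (Fin n)) : ∑ x, NW f (w ++ [x] ++ w) = NW f w * NW f w := by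
  have h : ∀ x, NW f (w ++ [x] ++ w) =
      ∑ a, ∑ b, ∑ d, ∑ c, MW f w a c * Mx f x c d * MW f w d b := by
    intro x
    simp only [NW, MW_append, MW_single, Matrix.mul_apply, sum_mul]
  simp only [h]
  rw [sum_comm]
  have h2 : ∀ a : Fin n, ∑ x, ∑ b, ∑ d, ∑ c, MW f w a c * Mx f x c d * MW f w d b =
      (∑ c, MW f w a c) * NW f w := by
    intro a
    rw [sum_comm]
    have h3 : ∀ b : Fin n, ∑ x, ∑ d, ∑ c, MW f w a c * Mx f x c d * MW f w d b =
        (∑ c, MW f w a c) * ∑ d, MW f w d b := by
      intro b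
      rw [sum_comm, mul_sum]
      refine sum_congr rfl fun d _ => ?_
      rw [sum_comm, sum_mul]
      refine sum_congr rfl fun c _ => ?_
      rw [← sum_mul, ← mul_sum, sum_Mx, mul_one]
    simp only [h3]
    rw [← mul_sum]
    congr 1
    rw [NW, sum_comm]
  rw [sum_congr rfl fun a _ => h2 a, ← sum_mul]
  rfl

/-- If every word has a preimage, then every word has exactly `n` preimages. -/
theorem balanced (hpos : ∀ w, 1 ≤ NW f w) (w : List (Fin n)) : NW f w = n := by
  classical
  have hex : ∃ k, ∃ w, NW f w = k := ⟨_, [], rfl⟩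
  obtain ⟨w0, hw0⟩ := Nat.find_spec hex
  set k0 := Nat.find hex with hk0
  have hmin : ∀ w, k0 ≤ NW f w := fun w => Nat.find_min' hex ⟨w, rfl⟩
  have ext1 : ∀ w, NW f w = k0 → ∀ x, NW f (w ++ [x]) = k0 := by
    intro w hw x
    have h1 := sum_NW_append f w
    rw [hw] at h1
    have h2 : ∑ x : Fin n, k0 = n * k0 := by simp
    have h3 : ∑ x : Fin n, k0 = ∑ x, NW f (w ++ [x]) := by rw [h1, h2]
    have h4 := (Finset.sum_eq_sum_iff_of_le (fun x _ => hmin (w ++ [x]))).1 h3
    exact (h4 x (mem_univ x)).symm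
  have ext2 : ∀ v w, NW f w = k0 → NW f (w ++ v) = k0 := by
    intro v
    induction v with
    | nil => intro w hw; simpa using hw
    | cons x v ih =>
      intro w hw
      have := ih (w ++ [x]) (ext1 w hw x)
      simpa using this
  have hsq : n * k0 = k0 * k0 := by
    have h1 := sum_NW_mid f w0
    rw [hw0] at h1
    rw [← h1]
    have h2 : ∀ x, NW f (w0 ++ [x] ++ w0) = k0 := by
      intro x
      rw [List.append_assoc]
      exact ext2 _ _ hw0
    simp only [h2]
    simp
  have hk : k0 = n := by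
    have hp : 0 < k0 := by
      have := hpos w0
      omega
    exact (Nat.eq_of_mul_eq_mul_right hp hsq).symm
  have := ext2 w [] (by rw [NW_nil, hk])
  rw [hk] at this
  simpa using this

theorem mul_ge (A B : Matrix (Fin n) (Fin n) ℕ) (a b c : Fin n) : A a b * B b c ≤ (A * B) a c := by
  rw [Matrix.mul_apply]
  exact single_le_sum (f := fun j => A a j * B j c) (fun _ _ => Nat.zero_le _) (mem_univ b)

theorem le_NW (w : List (Fin n)) (a b : Fin n) : MW f w a b ≤ NW f w := by
  calc MW f w a b ≤ ∑ b, MW f w a b :=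
        single_le_sum (f := fun b => MW f w a b) (fun _ _ => Nat.zero_le _) (mem_univ b)
    _ ≤ _ := single_le_sum (f := fun a => ∑ b, MW f w a b) (fun _ _ => Nat.zero_le _) (mem_univ a)

theorem path_of_conf (w : List (Fin n)) : ∀ c : ℕ → Fin n,
    (∀ i (hi : i < w.length), f (c i) (c (i + 1)) = w[i]) → 1 ≤ MW f w (c 0) (c w.length) := by
  induction w with
  | nil => intro c _; simp [MW]
  | cons x w ih =>
    intro c hc
    have h1 := ih (fun i => c (i + 1)) (fun i hi => by
      have := hc (i + 1) (by simpa using hi)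
      simpa using this)
    have h2 : Mx f x (c 0) (c 1) = 1 := by
      have := hc 0 (by simp)
      simp only [List.getElem_cons_zero] at this
      simp [Mx, this]
    have h3 : MW f (x :: w) = Mx f x * MW f w := by simp [MW]
    rw [h3]
    refine le_trans ?_ (mul_ge _ _ _ (c 1) _)
    rw [h2, one_mul]
    simpa using h1

theorem pos_of_surjective (hs : Function.Surjective (globalMap f)) (hn : 0 < n)
    (w : List (Fin n)) : 1 ≤ NW f w := by
  obtain ⟨c, hc⟩ := hs (fun i : ℤ => w.getD i.toNat ⟨0, hn⟩)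
  refine le_trans (path_of_conf f w (fun i => c i) ?_) (le_NW f w _ _)
  intro i hi
  have h := congrFun hc (i : ℤ)
  simp only [globalMap, Int.toNat_natCast] at h
  rw [List.getD_eq_getElem _ _ hi] at h
  simpa using h

theorem rch_count {j : ℕ} : ∀ {a b : Fin n}, Rch f j a b →
    ∃ w p, 1 ≤ MW f w p a ∧ 1 ≤ MW f w p b := by
  induction j with
  | zero =>
    intro a b h
    cases h
    exact ⟨[], a, by simp [MW], by simp [MW]⟩
  | succ j ih =>
    rintro a b ⟨a', b', h, hl⟩
    obtain ⟨w, p, h1, h2⟩ := ih h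
    refine ⟨w ++ [f a' a], p, ?_, ?_⟩
    · rw [MW_append, MW_single]
      refine le_trans ?_ (mul_ge _ _ _ a' _)
      simpa [Mx] using h1
    · rw [MW_append, MW_single]
      refine le_trans ?_ (mul_ge _ _ _ b' _)
      simpa [Mx, hl] using h2

/-- Moore's theorem: an automaton with a diamond is not surjective. -/
theorem not_surjective_of_hasDiamond {l : ℕ} (hd : HasDiamond f l) :
    ¬ Function.Surjective (globalMap f) := by
  intro hs
  obtain ⟨j, _, a, b, s, hab, hr, hl⟩ := hd.exists_rch
  obtain ⟨w, p, h1, h2⟩ := rch_count f hr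
  have hn : 0 < n := Fin.pos a
  have h3 : 2 ≤ MW f (w ++ [f a s]) p s := by
    rw [MW_append, MW_single, Matrix.mul_apply]
    have h4 : ∑ c ∈ ({a, b} : Finset (Fin n)), MW f w p c * Mx f (f a s) c s ≤
        ∑ c, MW f w p c * Mx f (f a s) c s :=
      sum_le_sum_of_subset (subset_univ _)
    rw [sum_pair hab] at h4
    simp only [Mx, ← hl, if_true, mul_one] at h4 ⊢
    omega
  have h5 : 2 ≤ MW f (w ++ [f a s] ++ [f s p]) p p := by
    rw [MW_append, MW_single]
    refine le_trans ?_ (mul_ge _ _ _ s _)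
    simpa [Mx] using h3
  have h6 : ∀ k, ∃ v, 2 ^ k ≤ MW f v p p := by
    intro k
    induction k with
    | zero => exact ⟨[], by simp [MW]⟩
    | succ k ih =>
      obtain ⟨v, hv⟩ := ih
      refine ⟨v ++ (w ++ [f a s] ++ [f s p]), ?_⟩
      rw [MW_append, pow_succ]
      exact le_trans (Nat.mul_le_mul hv h5) (mul_ge _ _ _ p _)
  obtain ⟨v, hv⟩ := h6 n
  have h7 := balanced f (pos_of_surjective f hs hn) v
  have h8 := le_NW f v p p
  have h9 : n < 2 ^ n := Nat.lt_two_pow_self
  omega

end Pool.Agent.Lib.MP_b60c25_lc
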