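import Pool.Agent.Lib.MP_b60c25_lc.LinB

/-!
For every `m ≥ 4` an automaton with `2 m` states whose shortest diamond has length at least `m + 3`.
-/

namespace Pool.Agent.Lib.MP_b60c25_lc

/-- The automaton. -/
def fL (m : ℕ) (hm : 4 ≤ m) (a s : Fin (2 * m)) : Fin (2 * m) := ⟨gN m a s, gN_lt hm s.2⟩

theorem fL_chain {m : ℕ} (hm : 4 ≤ m) (k : ℕ) (hk : 1 ≤ k) (hkm : k < m) :
    ∃ l, ∃ i, ∃ h : i < k, Rch (fL m hm) l ⟨i, by omega⟩ ⟨m + k, by omega⟩ := by
  induction k, hk using Nat.le_induction with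
  | base =>
    refine ⟨3, 0, by omega, ⟨0, by omega⟩, ⟨m, by omega⟩, ⟨⟨m - 1, by omega⟩, ⟨2 * m - 1, by omega⟩,
      ⟨⟨m - 1, by omega⟩, ⟨m - 1, by omega⟩, rfl, ?_⟩, ?_⟩, ?_⟩
    all_goals
      apply Fin.ext
      show gN m _ _ = gN m _ _
      dsimp only
      unfold gN
      split_ifs <;> omega
  | succ k hk ih =>
    obtain ⟨l, i, hi, hr⟩ := ih (by omega)
    by_cases h1 : i + 1 = k
    · refine ⟨l + 1, i, by omega, _, _, hr, ?_⟩
      apply Fin.ext
      show gN m _ _ = gN m _ _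
      dsimp only
      unfold gN
      split_ifs <;> omega
    · refine ⟨l + 1, k, by omega, _, _, hr, ?_⟩
      apply Fin.ext
      show gN m _ _ = gN m _ _
      dsimp only
      unfold gN
      split_ifs <;> omega

theorem fL_hasDiamond {m : ℕ} (hm : 4 ≤ m) : ∃ l, HasDiamond (fL m hm) l := by
  obtain ⟨l, i, hi, hr⟩ := fL_chain hm (m - 1) (by omega) (by omega)
  have h1 : Rch (fL m hm) (l + 1) ⟨m + 1, by omega⟩ ⟨2 * m - 1, by omega⟩ := by
    refine ⟨_, _, hr, ?_⟩
    apply Fin.ext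
    show gN m _ _ = gN m _ _
    dsimp only
    unfold gN
    split_ifs <;> omega
  have h2 : Rch (fL m hm) (l + 2) ⟨2, by omega⟩ ⟨0, by omega⟩ := by
    refine ⟨_, _, h1, ?_⟩
    apply Fin.ext
    show gN m _ _ = gN m _ _
    dsimp only
    unfold gN
    split_ifs <;> omega
  refine ⟨l + 2, h2.hasDiamond (s := ⟨2 * m - 1, by omega⟩) ?_ ?_⟩
  · intro h
    have := congrArg Fin.val h
    simp at this
  · apply Fin.ext
    show gN m _ _ = gN m _ _
    dsimp only
    unfold gN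
    split_ifs <;> omega

theorem fL_le {m : ℕ} (hm : 4 ≤ m) {l : ℕ} (hd : HasDiamond (fL m hm) l) : m + 3 ≤ l := by
  refine le_of_potential (m + 3) (fun a b : Fin (2 * m) => hN m a b) ?_ ?_ ?_ hd
  · intro p c d hcd h
    have h' : gN m p c = gN m p d := congrArg Fin.val h
    have hne : (c : ℕ) ≠ d := fun h => hcd (Fin.ext h)
    rcases Nat.lt_or_gt_of_ne hne with h1 | h1
    · exact hN_row hm d.2 h1 h'
    · rw [show hN m c d = hN m d c from hN_symm m c d]
      exact hN_row hm c.2 h1 h'.symm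
  · intro a b c d _ hcd h
    exact hN_step' hm a.2 b.2 c.2 d.2 (fun h => hcd (Fin.ext h)) (congrArg Fin.val h)
  · intro a b s hab h
    have h' : gN m a s = gN m b s := congrArg Fin.val h
    have hne : (a : ℕ) ≠ b := fun h => hab (Fin.ext h)
    rcases Nat.lt_or_gt_of_ne hne with h1 | h1
    · exact hN_end hm a.2 b.2 s.2 h1 h'
    · rw [show hN m a b = hN m b a from hN_symm m a b]
      exact hN_end hm b.2 a.2 s.2 h1 h'.symm

/-- The lower bound of `D n` by an automaton. -/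
theorem le_D_of {n : ℕ} (f : Fin n → Fin n → Fin n) {L l : ℕ} (hd : HasDiamond f l)
    (hL : ∀ l, HasDiamond f l → L ≤ l) : L ≤ D n := by
  refine le_trans ?_ (le_D f (not_surjective_of_hasDiamond f hd))
  exact le_csInf ⟨l, hd⟩ fun l hl => hL l hl

theorem linear {m : ℕ} (hm : 4 ≤ m) : m + 3 ≤ D (2 * m) := by
  obtain ⟨l, hl⟩ := fL_hasDiamond hm
  exact le_D_of (fL m hm) hl fun l hl => fL_le hm hl

end Pool.Agent.Lib.MP_b60c25_lc
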