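import Pool.Agent.Lib.MP_b60c25_lc.Goe

/-!
For every `m ≥ 4` an automaton with `2 m` states whose shortest diamond has length at least `m + 3`:
the local rule and its potential, on natural numbers.
-/

namespace Pool.Agent.Lib.MP_b60c25_lc

/-- The local rule, on natural numbers: the states are `0, …, 2 m - 1`, the first half is `A`, the
second half is `B`. Row `i < m - 1` exchanges `i` and `i + 1` and fixes the other states; row
`m + j` (`1 ≤ j < m - 1`) exchanges `m + j` and `m + j + 1` and then `A` and `B`; row `m` exchanges
`A` and `B`; the last row of `A` rotates `A` and `B` by two, the last row of `B` does the same and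
exchanges `A` and `B`; in the last column the last row of each half has the same entry as in the
column `m - 1`. -/
def gN (m a s : ℕ) : ℕ :=
  if a < m then
    (if a + 1 = m then
      (if s + 1 = 2 * m then 1
        else if s < m then (if s + 2 < m then s + 2 else s + 2 - m)
        else (if s + 2 < 2 * m then s + 2 else s + 2 - m))
      else if s = a then a + 1 else if s = a + 1 then a else s)
  else
    (if a + 1 = 2 * m then
      (if s + 1 = 2 * m then m + 1
        else if s < m then (if s + 2 < m then s + 2 + m else s + 2)
        else (if s + 2 < 2 * m then s + 2 - m else s + 2 - 2 * m))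
      else if s < m then s + m
      else if a ≠ m ∧ s = a then a + 1 - m
      else if a ≠ m ∧ s = a + 1 then a - m
      else s - m)

/-- The potential. -/
def hN (m a b : ℕ) : ℕ :=
  if a < m ∧ m ≤ b then (if a + m = b then (if a + 1 = m then 1 else 2) else max a (b - m) + 2)
  else if b < m ∧ m ≤ a then (if b + m = a then (if b + 1 = m then 1 else 2)
    else max b (a - m) + 2)
  else if a + 1 = m ∨ b + 1 = m ∨ a + 1 = 2 * m ∨ b + 1 = 2 * m then m + 2 else m + 3

theorem hN_symm (m a b : ℕ) : hN m a b = hN m b a := by
  unfold hN
  split_ifs <;> omega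

theorem hN_le (m a b : ℕ) (ha : a < 2 * m) (hb : b < 2 * m) : hN m a b ≤ m + 3 := by
  unfold hN
  split_ifs <;> omega

theorem gN_lt {m a s : ℕ} (hm : 4 ≤ m) (hs : s < 2 * m) : gN m a s < 2 * m := by
  unfold gN
  split_ifs <;> omega

/-- two equal entries in a row -/
theorem hN_row {m p c d : ℕ} (hm : 4 ≤ m) (hd : d < 2 * m)
    (hcd : c < d) (h : gN m p c = gN m p d) : hN m c d ≤ 1 := by
  have h1 : c + 1 = m ∧ d + 1 = 2 * m := by
    unfold gN at h
    split_ifs at h <;> omega
  unfold hN
  rw [if_pos (by omega), if_pos (by omega), if_pos (by omega)]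

end Pool.Agent.Lib.MP_b60c25_lc
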