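import Pool.Agent.Lib.MP_b60c25_lc.LinA

/-!
The properties of the potential.
-/

namespace Pool.Agent.Lib.MP_b60c25_lc

/-- steps from a pair of states in `A × B`, both rows not the last ones -/
theorem hN_step1 {m a b c d : ℕ} (hm : 4 ≤ m) (ha : a + 1 < m) (hb : m ≤ b) (hb' : b + 1 < 2 * m)
    (hd : d < 2 * m) (h : gN m a c = gN m b d) :
    hN m c d ≤ hN m a b + 1 := by
  have e1 : gN m a c = if c = a then a + 1 else if c = a + 1 then a else c := by
    unfold gN
    rw [if_pos (by omega), if_neg (by omega)]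
  have e2 : gN m b d = if d < m then d + m else if b ≠ m ∧ d = b then b + 1 - m
      else if b ≠ m ∧ d = b + 1 then b - m else d - m := by
    unfold gN
    rw [if_neg (by omega), if_neg (by omega)]
  rw [e1, e2] at h
  unfold hN
  split_ifs at h <;> split_ifs <;> omega

/-- steps from the pair of the last rows -/
theorem hN_step2 {m a b c d : ℕ} (hm : 4 ≤ m) (ha : a + 1 = m) (hb' : b + 1 = 2 * m)
    (hc : c < 2 * m) (hd : d < 2 * m) (h : gN m a c = gN m b d) :
    hN m c d ≤ hN m a b + 1 := by
  have e1 : gN m a c = if c + 1 = 2 * m then 1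
        else if c < m then (if c + 2 < m then c + 2 else c + 2 - m)
        else (if c + 2 < 2 * m then c + 2 else c + 2 - m) := by
    unfold gN
    rw [if_pos (by omega), if_pos (by omega)]
  have e2 : gN m b d = if d + 1 = 2 * m then m + 1
        else if d < m then (if d + 2 < m then d + 2 + m else d + 2)
        else (if d + 2 < 2 * m then d + 2 - m else d + 2 - 2 * m) := by
    unfold gN
    rw [if_neg (by omega), if_pos (by omega)]
  rw [e1, e2] at h
  have h3 : (c < m ∧ c + m = d) ∨ (d < m ∧ d + m = c) := by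
    split_ifs at h <;> omega
  have h4 : hN m a b = 1 := by
    unfold hN
    rw [if_pos (by omega), if_pos (by omega), if_pos (by omega)]
  rw [h4]
  unfold hN
  split_ifs <;> omega

/-- steps from a pair of states in `A × B`, the last row of `A` and another row of `B` -/
theorem hN_step3 {m a b c d : ℕ} (hm : 4 ≤ m) (ha : a + 1 = m) (hb : m ≤ b) (hb' : b + 1 < 2 * m)
    (hc : c < 2 * m) (hd : d < 2 * m) (hcd : c ≠ d) (h : gN m a c = gN m b d) :
    hN m c d ≤ hN m a b + 1 := by
  have e1 : gN m a c = if c + 1 = 2 * m then 1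
        else if c < m then (if c + 2 < m then c + 2 else c + 2 - m)
        else (if c + 2 < 2 * m then c + 2 else c + 2 - m) := by
    unfold gN
    rw [if_pos (by omega), if_pos (by omega)]
  have e2 : gN m b d = if d < m then d + m else if b ≠ m ∧ d = b then b + 1 - m
      else if b ≠ m ∧ d = b + 1 then b - m else d - m := by
    unfold gN
    rw [if_neg (by omega), if_neg (by omega)]
  rw [e1, e2] at h
  have h4 : hN m a b = m + 1 := by
    unfold hN
    rw [if_pos (by omega), if_neg (by omega)]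
    omega
  have h5 : (c < m ∧ m ≤ d) ∨ (d < m ∧ m ≤ c) ∨ c + 1 = 2 * m ∨ d + 1 = 2 * m := by
    split_ifs at h <;> omega
  rw [h4]
  unfold hN
  split_ifs <;> omega

/-- steps from a pair of states in `A × B`, the last row of `B` and another row of `A` -/
theorem hN_step4 {m a b c d : ℕ} (hm : 4 ≤ m) (ha : a + 1 < m) (hb' : b + 1 = 2 * m)
    (hc : c < 2 * m) (hd : d < 2 * m) (h : gN m a c = gN m b d) :
    hN m c d ≤ hN m a b + 1 := by
  have e1 : gN m a c = if c = a then a + 1 else if c = a + 1 then a else c := by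
    unfold gN
    rw [if_pos (by omega), if_neg (by omega)]
  have e2 : gN m b d = if d + 1 = 2 * m then m + 1
        else if d < m then (if d + 2 < m then d + 2 + m else d + 2)
        else (if d + 2 < 2 * m then d + 2 - m else d + 2 - 2 * m) := by
    unfold gN
    rw [if_neg (by omega), if_pos (by omega)]
  rw [e1, e2] at h
  have h4 : hN m a b = m + 1 := by
    unfold hN
    rw [if_pos (by omega), if_neg (by omega)]
    omega
  have h5 : (c < m ∧ m ≤ d) ∨ (d < m ∧ m ≤ c) ∨ c + 1 = 2 * m ∨ d + 1 = 2 * m := by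
    split_ifs at h <;> omega
  rw [h4]
  unfold hN
  split_ifs <;> omega

theorem hN_step {m a b c d : ℕ} (hm : 4 ≤ m) (ha : a < m) (hb : m ≤ b) (hb' : b < 2 * m)
    (hc : c < 2 * m) (hd : d < 2 * m) (hcd : c ≠ d) (h : gN m a c = gN m b d) :
    hN m c d ≤ hN m a b + 1 := by
  by_cases h1 : a + 1 = m
  · by_cases h2 : b + 1 = 2 * m
    · exact hN_step2 hm h1 h2 hc hd h
    · exact hN_step3 hm h1 hb (by omega) hc hd hcd h
  · by_cases h2 : b + 1 = 2 * m
    · exact hN_step4 hm (by omega) h2 hc hd h
    · exact hN_step1 hm (by omega) hb (by omega) hd h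

theorem hN_step' {m a b c d : ℕ} (hm : 4 ≤ m) (ha : a < 2 * m) (hb : b < 2 * m)
    (hc : c < 2 * m) (hd : d < 2 * m) (hcd : c ≠ d) (h : gN m a c = gN m b d) :
    hN m c d ≤ hN m a b + 1 := by
  by_cases h1 : a < m ∧ m ≤ b
  · exact hN_step hm h1.1 h1.2 hb hc hd hcd h
  by_cases h2 : b < m ∧ m ≤ a
  · rw [hN_symm m c d, hN_symm m a b]
    exact hN_step hm h2.1 h2.2 ha hd hc (Ne.symm hcd) h.symm
  · have h3 : m + 2 ≤ hN m a b := by
      unfold hN
      rw [if_neg h1, if_neg h2]
      split_ifs <;> omega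
    have h4 := hN_le m c d hc hd
    omega

theorem hN_end {m a b s : ℕ} (hm : 4 ≤ m) (ha : a < 2 * m) (hb : b < 2 * m) (hs : s < 2 * m)
    (hab : a < b) (h : gN m a s = gN m b s) : m + 3 ≤ hN m a b := by
  have h1 : ((b < m ∧ b + 1 ≠ m) ∨ (m ≤ a ∧ b + 1 ≠ 2 * m)) := by
    unfold gN at h
    split_ifs at h <;> omega
  unfold hN
  rw [if_neg (by omega), if_neg (by omega), if_neg (by omega)]

end Pool.Agent.Lib.MP_b60c25_lc
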