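import Pool.Agent.Lib.MP_b60c25_lc.Lin

/-!
Automata with 4, 6 and 8 states whose shortest diamonds have length 5, 6 and 8.
-/

namespace Pool.Agent.Lib.MP_b60c25_lc

/-- A rule with 4 states (the one of `FourStateDiamond`). -/
def f4' : Fin 4 → Fin 4 → Fin 4 :=
  ![![0, 0, 1, 2], ![3, 3, 2, 1], ![1, 3, 2, 0], ![2, 1, 0, 3]]

/-- Its potential. -/
def h4' : Fin 4 → Fin 4 → ℕ :=
  ![![0, 1, 3, 4], ![1, 0, 5, 3], ![3, 5, 0, 2], ![4, 3, 2, 0]]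

theorem f4'_hasDiamond : HasDiamond f4' 5 := by
  refine ⟨by norm_num, 0, 1, [0, 2, 1, 0, 1], [1, 3, 3, 3, 2], rfl, rfl, by decide, ?_⟩
  decide +kernel

theorem four : 5 ≤ D 4 :=
  le_D_of f4' f4'_hasDiamond fun _ hl =>
    le_of_potential 5 h4' (by decide +kernel) (by decide +kernel) (by decide +kernel) hl

/-- A rule with 6 states. -/
def f6 : Fin 6 → Fin 6 → Fin 6 :=
  ![![2, 1, 0, 5, 3, 4], ![0, 2, 1, 5, 3, 4], ![1, 0, 2, 4, 3, 2], ![5, 3, 4, 2, 0, 1],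
    ![3, 5, 4, 2, 1, 0], ![3, 4, 5, 0, 1, 5]]

/-- Its potential. -/
def h6 : Fin 6 → Fin 6 → ℕ :=
  ![![0, 6, 6, 3, 2, 4], ![6, 0, 6, 2, 3, 4], ![6, 6, 0, 5, 4, 1], ![3, 2, 5, 0, 6, 5],
    ![2, 3, 4, 6, 0, 6], ![4, 4, 1, 5, 6, 0]]

theorem f6_hasDiamond : HasDiamond f6 6 := by
  refine ⟨by norm_num, 2, 4, [2, 0, 0, 1, 3, 0], [5, 4, 3, 5, 5, 2], rfl, rfl, by decide, ?_⟩
  decide +kernel

theorem six : 6 ≤ D 6 :=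
  le_D_of f6 f6_hasDiamond fun _ hl =>
    le_of_potential 6 h6 (by decide +kernel) (by decide +kernel) (by decide +kernel) hl

/-- A rule with 8 states. -/
def f8 : Fin 8 → Fin 8 → Fin 8 :=
  ![![0, 1, 2, 3, 6, 4, 5, 7], ![2, 0, 1, 3, 4, 6, 5, 7], ![3, 2, 1, 0, 7, 5, 4, 6],
    ![1, 7, 2, 0, 5, 7, 4, 6], ![4, 6, 5, 7, 0, 1, 2, 3], ![4, 6, 5, 7, 2, 0, 1, 3],
    ![7, 5, 4, 6, 3, 2, 1, 0], ![5, 3, 4, 6, 1, 3, 2, 0]]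

/-- Its potential. -/
def h8 : Fin 8 → Fin 8 → ℕ :=
  ![![0, 8, 7, 8, 2, 3, 4, 5], ![8, 0, 8, 6, 3, 1, 4, 5], ![7, 8, 0, 8, 4, 4, 2, 8],
    ![8, 6, 8, 0, 5, 5, 8, 2], ![2, 3, 4, 5, 0, 8, 7, 8], ![3, 1, 4, 5, 8, 0, 8, 7],
    ![4, 4, 2, 8, 7, 8, 0, 8], ![5, 5, 8, 2, 8, 7, 8, 0]]

theorem f8_hasDiamond : HasDiamond f8 8 := by
  refine ⟨by norm_num, 3, 2, [1, 0, 4, 5, 1, 3, 0, 0], [5, 4, 1, 2, 7, 1, 2, 3], rfl, rfl,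
    by decide, ?_⟩
  decide +kernel

theorem eight : 8 ≤ D 8 :=
  le_D_of f8 f8_hasDiamond fun _ hl =>
    le_of_potential 8 h8 (by decide +kernel) (by decide +kernel) (by decide +kernel) hl

theorem linear_all {m : ℕ} (hm : 2 ≤ m) : m + 3 ≤ D (2 * m) := by
  rcases Nat.lt_or_ge m 4 with h | h
  · have h' : m = 2 ∨ m = 3 := by omega
    rcases h' with rfl | rfl
    · exact four
    · exact six
  · exact linear h

end Pool.Agent.Lib.MP_b60c25_lc
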